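import Mathlib
import Pool.Agent.Y287.LipInterp

set_option autoImplicit false

open MeasureTheory Set
open scoped ENNReal

universe u

namespace Pool.Agent.Results.MP_6e3e44_an.LipschitzInterpolation

/-- For all exponents `1 ≤ β < γ < α < ∞` and every finite measure space (for instance `[0,1]`
with Lebesgue measure), `L^γ` is a Lipschitz interpolation space between `L^β` and `L^α`, with the
constant `C = 2 (γ/(γ-β) + γ/(α-γ))^(1/γ)`, which depends on the exponents only. -/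
theorem result :
    ∀ β γ α : ℝ, 1 ≤ β → β < γ → γ < α →
      ∃ C : ℝ, 0 < C ∧ C = 2 * (γ / (γ - β) + γ / (α - γ)) ^ (1 / γ) ∧
      ∀ (Ω : Type u) (_ : MeasurableSpace Ω) (μ : Measure Ω), IsFiniteMeasure μ →
      ∀ (U : Lp ℂ (ENNReal.ofReal β) μ → Lp ℂ (ENNReal.ofReal β) μ) (M₀ M₁ : ℝ),
        0 ≤ M₀ → 0 ≤ M₁ →
        (∀ x y : Lp ℂ (ENNReal.ofReal β) μ,
          eLpNorm (⇑(U x) - ⇑(U y)) (ENNReal.ofReal β) μ ≤
            ENNReal.ofReal M₀ * eLpNorm (⇑x - ⇑y) (ENNReal.ofReal β) μ) →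
        (∀ x : Lp ℂ (ENNReal.ofReal β) μ, MemLp x (ENNReal.ofReal α) μ →
          MemLp (U x) (ENNReal.ofReal α) μ) →
        (∀ x y : Lp ℂ (ENNReal.ofReal β) μ, MemLp x (ENNReal.ofReal α) μ →
          MemLp y (ENNReal.ofReal α) μ →
          eLpNorm (⇑(U x) - ⇑(U y)) (ENNReal.ofReal α) μ ≤
            ENNReal.ofReal M₁ * eLpNorm (⇑x - ⇑y) (ENNReal.ofReal α) μ) →
        (∀ x : Lp ℂ (ENNReal.ofReal β) μ, MemLp x (ENNReal.ofReal γ) μ →
          MemLp (U x) (ENNReal.ofReal γ) μ) ∧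
        ∀ x y : Lp ℂ (ENNReal.ofReal β) μ, MemLp x (ENNReal.ofReal γ) μ →
          MemLp y (ENNReal.ofReal γ) μ →
          eLpNorm (⇑(U x) - ⇑(U y)) (ENNReal.ofReal γ) μ ≤
            ENNReal.ofReal (C * max M₀ M₁) * eLpNorm (⇑x - ⇑y) (ENNReal.ofReal γ) μ := by
  intro β γ α hβ hβγ hγα
  have hγβ : 0 < γ - β := by linarith
  have hαγ : 0 < α - γ := by linarith
  have hγ : 0 < γ := by linarith
  have hβ0 : 0 < β := by linarith
  refine ⟨_, ?_, rfl, ?_⟩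
  · positivity
  intro Ω _ μ _ U M₀ M₁ hM₀ hM₁ h0 hmaps h1
  have : Fact (1 ≤ ENNReal.ofReal β) := ⟨by simpa using ENNReal.ofReal_le_ofReal hβ⟩
  have hbound : ∀ x y : Lp ℂ (ENNReal.ofReal β) μ,
      eLpNorm (⇑(U x) - ⇑(U y)) (ENNReal.ofReal γ) μ ≤
        ENNReal.ofReal (2 * (γ / (γ - β) + γ / (α - γ)) ^ (1 / γ) * max M₀ M₁) *
          eLpNorm (⇑x - ⇑y) (ENNReal.ofReal γ) μ := by
    intro x y
    rcases (le_max_of_le_left hM₀ : 0 ≤ max M₀ M₁).eq_or_lt with hM | hM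
    · have hM0' : M₀ ≤ 0 := hM ▸ le_max_left M₀ M₁
      have := h0 x y
      rw [ENNReal.ofReal_of_nonpos hM0', zero_mul, nonpos_iff_eq_zero,
        eLpNorm_eq_zero_iff ((Lp.aestronglyMeasurable _).sub (Lp.aestronglyMeasurable _))
          (by simpa using hβ0)] at this
      rw [eLpNorm_congr_ae this, eLpNorm_zero]
      exact bot_le
    · exact Pool.Agent.Y287.LipInterp.main hβ hβγ hγα hM U
        (fun x y => (h0 x y).trans (mul_le_mul_left
          (ENNReal.ofReal_le_ofReal (le_max_left _ _)) _))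
        (fun x y hx hy => (h1 x y hx hy).trans (mul_le_mul_left
          (ENNReal.ofReal_le_ofReal (le_max_right _ _)) _)) x y
  refine ⟨fun x hx => ?_, fun x y _ _ => hbound x y⟩
  -- U 0 is in L^α, hence in L^γ
  have hz : MemLp (⇑(0 : Lp ℂ (ENNReal.ofReal β) μ)) (ENNReal.ofReal α) μ :=
    (MemLp.zero : MemLp (0 : Ω → ℂ) (ENNReal.ofReal α) μ).ae_eq (Lp.coeFn_zero _ _ _).symm
  have hz' : MemLp (⇑(0 : Lp ℂ (ENNReal.ofReal β) μ)) (ENNReal.ofReal γ) μ :=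
    (MemLp.zero : MemLp (0 : Ω → ℂ) (ENNReal.ofReal γ) μ).ae_eq (Lp.coeFn_zero _ _ _).symm
  have hU0 : MemLp (⇑(U 0)) (ENNReal.ofReal γ) μ :=
    (hmaps 0 hz).mono_exponent (ENNReal.ofReal_le_ofReal hγα.le)
  have hd : MemLp (⇑(U x) - ⇑(U 0)) (ENNReal.ofReal γ) μ := by
    refine ⟨(Lp.aestronglyMeasurable _).sub (Lp.aestronglyMeasurable _), ?_⟩
    refine (hbound x 0).trans_lt ?_
    exact ENNReal.mul_lt_top ENNReal.ofReal_lt_top (hx.sub hz').2
  have := hd.add hU0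
  simpa using this

end Pool.Agent.Results.MP_6e3e44_an.LipschitzInterpolation
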